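import Pool.Agent.Lib.MP_c385f6_ag.Dyadic.Induct
import Pool.Agent.Lib.MP_c385f6_ag.Branch
import Pool.Agent.Lib.MP_c385f6_ag.SeriesPlace

set_option autoImplicit false

/-!
Sections for elementary abelian `2`-covers of the line over `ℚ_[2]` branched over an arithmetic
progression and infinity.
-/

namespace Pool.Agent.Lib.MP_c385f6_ag.Dyadic

open Pool.Agent.Lib.MP_c385f6_ag

/-- Completeness for arithmetic progressions. -/
theorem complete_ap {n : ℕ} (hn : 9 ≤ n) {u v : ℚ_[2]} (hv : v ≠ 0) {D : Fin n → ℚ_[2]}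
    (hD : ∀ j, D j ≠ 0)
    (hcon : (∃ i j, i ≠ j ∧ ∃ e : ℚ_[2], e ≠ 0 ∧ D i = D j * e ^ 2) →
      ∀ i j : Fin n, i ≠ j → ∃ X Y : ℚ_[2], D i * X ^ 2 - D j * Y ^ 2 =
        (u + v * (j : ℕ)) - (u + v * (i : ℕ))) :
    ∃ x : ℚ_[2], ∀ j : Fin n, ∃ e : ℚ_[2], e ≠ 0 ∧ x - (u + v * (j : ℕ)) = D j * e ^ 2 := by
  classical
  -- two of the classes are equal
  have h1 : ∃ i j, i ≠ j ∧ ∃ e : ℚ_[2], e ≠ 0 ∧ D i = D j * e ^ 2 := by
    choose cl hcl using fun j => exists_isCls (hD j)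
    have hmaps : ∀ j ∈ (Finset.univ : Finset (Fin n)), cl j ∈ Finset.range 8 := fun j _ =>
      Finset.mem_range.2 (hcl j).1
    obtain ⟨i, -, j, -, hij, h⟩ := Finset.exists_ne_map_eq_of_card_lt_of_maps_to
      (by rw [Finset.card_range, Finset.card_univ, Fintype.card_fin]; omega) hmaps
    refine ⟨i, j, hij, ?_⟩
    have h2 := hcl i
    rw [h] at h2
    exact h2.ratio (hcl j)
  have h2 := hcon h1
  obtain ⟨x, hx⟩ := complete n hn (fun a => if h : a < n then D ⟨a, h⟩ / v else 1) ⟨fun a ha => by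
      simp only [ha, dif_pos]
      exact div_ne_zero (hD _) hv, fun a b hab hb => by
      have ha := hab.trans hb
      obtain ⟨X, Y, h3⟩ := h2 ⟨a, ha⟩ ⟨b, hb⟩ (fun h => hab.ne (Fin.mk.inj_iff.1 h))
      refine ⟨X, Y, ?_⟩
      simp only [ha, hb, dif_pos]
      field_simp
      simp only at h3
      linear_combination h3⟩
  refine ⟨u + v * x, fun j => ?_⟩
  obtain ⟨e, he, h3⟩ := hx j j.2
  refine ⟨e, he, ?_⟩
  simp only [j.2, dif_pos, Fin.eta] at h3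
  field_simp at h3
  linear_combination h3

/-- The `2`-adic norm of a positive integer below `n` is at least `1 / n`. -/
theorem norm_sub_ge {n : ℕ} (i j : Fin n) (hij : i ≠ j) :
    1 ≤ n * ‖((j : ℕ) : ℚ_[2]) - ((i : ℕ) : ℚ_[2])‖ := by
  have hm : ((j : ℕ) : ℤ) - ((i : ℕ) : ℤ) ≠ 0 := by
    intro h
    apply hij
    ext
    omega
  set m : ℤ := ((j : ℕ) : ℤ) - ((i : ℕ) : ℤ) with hmd
  have hcast : ((j : ℕ) : ℚ_[2]) - ((i : ℕ) : ℚ_[2]) = (m : ℚ_[2]) := by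
    rw [hmd]
    push_cast
    rfl
  rw [hcast]
  have hm0 : (m : ℚ_[2]) ≠ 0 := by exact_mod_cast hm
  have h1 := Padic.norm_eq_zpow_neg_valuation hm0
  push_cast at h1
  have hv : 0 ≤ (m : ℚ_[2]).valuation := by
    by_contra hcon
    have h2 : ‖(m : ℚ_[2])‖ ≤ 1 := Padic.norm_int_le_one m
    rw [h1] at h2
    have h3 : (1 : ℝ) < 2 ^ (-(m : ℚ_[2]).valuation) :=
      one_lt_zpow₀ (by norm_num) (by omega)
    linarith
  obtain ⟨t, ht⟩ := Int.eq_ofNat_of_zero_le hv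
  rw [ht] at h1
  have h2 : ((2 : ℕ) ^ t : ℤ) ∣ m := by
    rw [← Padic.norm_int_le_pow_iff_dvd, h1]
    push_cast
    exact le_rfl
  have h3 : (2 : ℤ) ^ t ≤ |m| := by
    have h4 : ((2 : ℕ) ^ t : ℤ) ∣ |m| := (dvd_abs _ _).2 h2
    exact_mod_cast Int.le_of_dvd (abs_pos.2 hm) h4
  have h4 : |m| < n := by
    rw [abs_lt]
    have := i.2
    have := j.2
    omega
  have h5 : (2 : ℝ) ^ t ≤ n := by
    have h6 : (2 : ℤ) ^ t ≤ n := h3.trans h4.le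
    exact_mod_cast h6
  rw [h1, zpow_neg, zpow_natCast, ← div_eq_mul_inv, le_div_iff₀ (by positivity), one_mul]
  exact h5

/-- A number near one is a square. -/
theorem sq_of_near {x y : ℚ_[2]} (hx : x ≠ 0) (h : 8 * ‖y - x‖ ≤ ‖x‖) :
    ∃ e : ℚ_[2], e ≠ 0 ∧ y = x * e ^ 2 := by
  have hx0 : 0 < ‖x‖ := norm_pos_iff.2 hx
  have h8 : ‖(8 : ℚ_[2])‖ = 1 / 8 := by
    have : (8 : ℚ_[2]) = 2 * (2 * 2) := by norm_num
    rw [this, norm_mul, norm_mul, norm_two]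
    norm_num
  have hw : ‖(y - x) / (8 * x)‖ ≤ 1 := by
    rw [norm_div, norm_mul, h8, div_le_one (by positivity)]
    linarith
  obtain ⟨e, he, h1⟩ := sq_of_eight (x := y / x) ⟨_, hw⟩ (by
    show y / x = 1 + 8 * ((y - x) / (8 * x))
    field_simp
    ring)
  refine ⟨e, he, ?_⟩
  rw [← h1]
  field_simp

/-- The differences near an arithmetic progression. -/
theorem near_bound {n : ℕ} {u v : ℚ_[2]} {b : Fin n → ℚ_[2]}
    (hb : ∀ j, 8 * n * ‖b j - (u + v * (j : ℕ))‖ ≤ ‖v‖) (i j : Fin n) (hij : i ≠ j) :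
    8 * ‖(b j - (u + v * (j : ℕ))) - (b i - (u + v * (i : ℕ)))‖ ≤
      ‖v * (((j : ℕ) : ℚ_[2]) - ((i : ℕ) : ℚ_[2]))‖ := by
  have hn : (0 : ℝ) < n := by
    have := i.2
    exact_mod_cast (by omega : 0 < n)
  have h1 := norm_sub_ge i j hij
  have h2 : ‖(b j - (u + v * (j : ℕ))) - (b i - (u + v * (i : ℕ)))‖ ≤
      max ‖b j - (u + v * (j : ℕ))‖ ‖b i - (u + v * (i : ℕ))‖ := by
    have := Padic.nonarchimedean (b j - (u + v * ((j : ℕ) : ℚ_[2])))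
      (-(b i - (u + v * ((i : ℕ) : ℚ_[2]))))
    rwa [norm_neg, ← sub_eq_add_neg] at this
  have h3 : 8 * n * max ‖b j - (u + v * (j : ℕ))‖ ‖b i - (u + v * (i : ℕ))‖ ≤ ‖v‖ := by
    rcases max_choice ‖b j - (u + v * (j : ℕ))‖ ‖b i - (u + v * (i : ℕ))‖ with h | h
    · rw [h]; exact hb j
    · rw [h]; exact hb i
  have h4 : ‖v‖ ≤ n * (‖v‖ * ‖((j : ℕ) : ℚ_[2]) - ((i : ℕ) : ℚ_[2])‖) := by
    nlinarith [norm_nonneg v]
  rw [norm_mul]
  have h5 : n * (8 * ‖(b j - (u + v * (j : ℕ))) - (b i - (u + v * (i : ℕ)))‖) ≤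
      n * (‖v‖ * ‖((j : ℕ) : ℚ_[2]) - ((i : ℕ) : ℚ_[2])‖) := by
    calc _ = 8 * n * ‖(b j - (u + v * (j : ℕ))) - (b i - (u + v * (i : ℕ)))‖ := by ring
      _ ≤ 8 * n * max ‖b j - (u + v * (j : ℕ))‖ ‖b i - (u + v * (i : ℕ))‖ := by gcongr
      _ ≤ ‖v‖ := h3
      _ ≤ _ := h4
  exact le_of_mul_le_mul_left h5 hn

theorem near_diff {n : ℕ} {u v : ℚ_[2]} (hv : v ≠ 0) {b : Fin n → ℚ_[2]}
    (hb : ∀ j, 8 * n * ‖b j - (u + v * (j : ℕ))‖ ≤ ‖v‖) (i j : Fin n) (hij : i ≠ j) :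
    ∃ e : ℚ_[2], e ≠ 0 ∧ b j - b i = ((u + v * (j : ℕ)) - (u + v * (i : ℕ))) * e ^ 2 := by
  have h1 := near_bound hb i j hij
  have h2 : ((j : ℕ) : ℚ_[2]) - ((i : ℕ) : ℚ_[2]) ≠ 0 := by
    rw [sub_ne_zero]
    intro h
    apply hij
    ext
    exact_mod_cast h.symm
  have h3 : (u + v * ((j : ℕ) : ℚ_[2])) - (u + v * (i : ℕ)) = v * (((j : ℕ) : ℚ_[2]) - (i : ℕ)) := by
    ring
  rw [h3]
  refine sq_of_near (mul_ne_zero hv h2) ?_
  convert h1 using 3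
  ring

theorem near_injective {n : ℕ} {u v : ℚ_[2]} (hv : v ≠ 0) {b : Fin n → ℚ_[2]}
    (hb : ∀ j, 8 * n * ‖b j - (u + v * (j : ℕ))‖ ≤ ‖v‖) : Function.Injective b := by
  intro i j h
  by_contra hij
  obtain ⟨e, he, h1⟩ := near_diff hv hb i j hij
  rw [h, sub_self] at h1
  have h2 : ((j : ℕ) : ℚ_[2]) - ((i : ℕ) : ℚ_[2]) ≠ 0 := by
    rw [sub_ne_zero]
    intro h
    apply hij
    ext
    exact_mod_cast h.symm
  have h3 : (u + v * ((j : ℕ) : ℚ_[2])) - (u + v * (i : ℕ)) = v * (((j : ℕ) : ℚ_[2]) - (i : ℕ)) := by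
    ring
  rw [h3] at h1
  exact mul_ne_zero (mul_ne_zero hv h2) (pow_ne_zero 2 he) h1.symm

/-- Completeness near arithmetic progressions. -/
theorem complete_near {n : ℕ} (hn : 9 ≤ n) {u v : ℚ_[2]} (hv : v ≠ 0) {b : Fin n → ℚ_[2]}
    (hb : ∀ j, 8 * n * ‖b j - (u + v * (j : ℕ))‖ ≤ ‖v‖) {D : Fin n → ℚ_[2]}
    (hD : ∀ j, D j ≠ 0)
    (hcon : (∃ i j, i ≠ j ∧ ∃ e : ℚ_[2], e ≠ 0 ∧ D i = D j * e ^ 2) →
      ∀ i j : Fin n, i ≠ j → ∃ X Y : ℚ_[2], D i * X ^ 2 - D j * Y ^ 2 = b j - b i) :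
    ∃ x : ℚ_[2], ∀ j : Fin n, ∃ e : ℚ_[2], e ≠ 0 ∧ x - b j = D j * e ^ 2 := by
  classical
  obtain ⟨x, hx⟩ := complete_ap hn hv hD fun h i j hij => by
    obtain ⟨X, Y, h1⟩ := hcon h i j hij
    obtain ⟨e, he, h2⟩ := near_diff hv hb i j hij
    refine ⟨X / e, Y / e, ?_⟩
    have h3 : (D i * (X / e) ^ 2 - D j * (Y / e) ^ 2) * e ^ 2 =
        ((u + v * (j : ℕ)) - (u + v * (i : ℕ))) * e ^ 2 := by
      rw [← h2, ← h1]
      field_simp
    exact mul_right_cancel₀ (pow_ne_zero 2 he) h3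
  have hne : (Finset.univ : Finset (Fin n)).Nonempty := ⟨⟨0, by omega⟩, Finset.mem_univ _⟩
  obtain ⟨l, -, hl⟩ := Finset.univ.exists_min_image
    (fun j : Fin n => ‖x - (u + v * (j : ℕ))‖) hne
  refine ⟨x + (b l - (u + v * (l : ℕ))), fun j => ?_⟩
  obtain ⟨e, he, h1⟩ := hx j
  by_cases hj : j = l
  · subst hj
    exact ⟨e, he, by rw [← h1]; ring⟩
  · have h2 := near_bound hb j l hj
    have h3 : ‖v * (((l : ℕ) : ℚ_[2]) - ((j : ℕ) : ℚ_[2]))‖ ≤ ‖x - (u + v * (j : ℕ))‖ := by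
      have h4 : v * (((l : ℕ) : ℚ_[2]) - ((j : ℕ) : ℚ_[2])) =
          (x - (u + v * (j : ℕ))) + -(x - (u + v * (l : ℕ))) := by ring
      rw [h4]
      refine (Padic.nonarchimedean _ _).trans (max_le le_rfl ?_)
      rw [norm_neg]
      exact hl j (Finset.mem_univ _)
    have hx0 : x - (u + v * (j : ℕ)) ≠ 0 := by
      rw [h1]
      exact mul_ne_zero (hD j) (pow_ne_zero 2 he)
    obtain ⟨f, hf, h4⟩ := sq_of_near (y := x + (b l - (u + v * (l : ℕ))) - b j) hx0 (by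
      refine le_trans (le_of_eq ?_) (h2.trans h3)
      congr 2
      ring)
    exact ⟨e * f, mul_ne_zero he hf, by rw [h4, h1]; ring⟩

section
variable {K Ω ι : Type*} [Field K] [Field Ω] [Algebra ℚ_[2] K] [Algebra ℚ_[2] Ω] [Algebra K Ω]
  [IsScalarTower ℚ_[2] K Ω] [IsAlgClosure K Ω]

/-- The point belonging to a section. -/
theorem near_section {n : ℕ} (hn : 9 ≤ n) {u v : ℚ_[2]} (hv : v ≠ 0) {b : Fin n → ℚ_[2]}
    (hb : ∀ j, 8 * n * ‖b j - (u + v * (j : ℕ))‖ ≤ ‖v‖) {w : K}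
    (hw : Transcendental ℚ_[2] w) {c : ι → ℚ_[2]} (hc : ∀ i, c i ≠ 0) {S : ι → Finset (Fin n)}
    {z : ι → K} (hz : ∀ i, z i ^ 2 = algebraMap ℚ_[2] K (c i) *
      ∏ j ∈ S i, (w - algebraMap ℚ_[2] K (b j)))
    (hcov : ∀ j, ∃ i, j ∈ S i) (hodd : ∃ i, Odd (S i).card)
    {s : AbsGal ℚ_[2] Ω →* PiOne ℚ_[2] K Ω} (hs : IsSection ℚ_[2] K Ω s) :
    ∃ x : ℚ_[2], (∀ j : Fin n, x ≠ b j) ∧
      (∀ j : Fin n, ∃ Y : maxUnramified ℚ_[2] K Ω, (∀ g, s g Y = Y) ∧ (Y : Ω) ^ 2 =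
        algebraMap ℚ_[2] Ω (x - b j) * algebraMap K Ω (w - algebraMap ℚ_[2] K (b j))) := by
  have hbi := near_injective hv hb
  have hwb : ∀ j : Fin n, w ≠ algebraMap ℚ_[2] K (b j) := by
    intro j h
    apply hw
    rw [h]
    exact isAlgebraic_algebraMap _
  obtain ⟨D, Y, hD, hYs, hY, hcon⟩ := branch_twists (Ω := Ω) hbi hwb hc hz hcov hodd hs
  obtain ⟨x, hx⟩ := complete_near hn hv hb hD hcon
  refine ⟨x, fun j h => ?_, fun j => ?_⟩
  · obtain ⟨e, he, h1⟩ := hx j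
    rw [h, sub_self] at h1
    exact mul_ne_zero (hD j) (pow_ne_zero 2 he) h1.symm
  · obtain ⟨e, he, h1⟩ := hx j
    have hem : algebraMap ℚ_[2] Ω e ∈ maxUnramified ℚ_[2] K Ω :=
      const_mem_maxUnramified ((algebraicClosure ℚ_[2] Ω).algebraMap_mem e)
    refine ⟨Y j * ⟨algebraMap ℚ_[2] Ω e, hem⟩, fun g => ?_, ?_⟩
    · rw [map_mul, hYs]
      congr 1
      apply Subtype.ext
      rw [hs.restrict g (algebraMap ℚ_[2] _ e) _ rfl, AlgEquiv.commutes]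
      rfl
    · show ((Y j : Ω) * algebraMap ℚ_[2] Ω e) ^ 2 = _
      rw [mul_pow, hY, h1, map_mul, map_pow]
      ring

end

section
variable {k K Ω κ : Type*} [Field k] [CharZero k] [Field K] [Field Ω] [Algebra k K]
  [Algebra k Ω] [Algebra K Ω] [IsScalarTower k K Ω] [IsAlgClosure K Ω]

/-- The values of the products at the point belonging to a section are squares. -/
theorem ap_values {b : κ → k} {w : K} {s : AbsGal k Ω →* PiOne k K Ω}
    (hs : IsSection k K Ω s) {x : k}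
    (hY : ∀ j, ∃ Y : maxUnramified k K Ω, (∀ g, s g Y = Y) ∧ (Y : Ω) ^ 2 =
        algebraMap k Ω (x - b j) * algebraMap K Ω (w - algebraMap k K (b j)))
    {c : k} {S : Finset κ} {z : K} (hz0 : z ≠ 0)
    (hz : z ^ 2 = algebraMap k K c * ∏ j ∈ S, (w - algebraMap k K (b j))) :
    ∃ e : k, c * ∏ j ∈ S, (x - b j) = e ^ 2 := by
  classical
  choose Y hYs hY using hY
  let y : maxUnramified k K Ω := algebraMap K _ (algebraMap k K c / z) * ∏ j ∈ S, Y j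
  have hys : ∀ g, s g y = y := by
    intro g
    show s g (algebraMap K _ (algebraMap k K c / z) * ∏ j ∈ S, Y j) = _
    rw [map_mul, map_prod, (s g).commutes, Finset.prod_congr rfl (fun j _ => hYs j g)]
  have hyΩ : (y : Ω) = algebraMap K Ω (algebraMap k K c / z) * ∏ j ∈ S, (Y j : Ω) := by
    show ((algebraMap K _ (algebraMap k K c / z) * ∏ j ∈ S, Y j : maxUnramified k K Ω) : Ω) = _
    rw [MulMemClass.coe_mul]
    refine congrArg₂ (· * ·) rfl ?_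
    exact map_prod (maxUnramified k K Ω).val (fun j => Y j) S
  have hy2 : (y : Ω) ^ 2 = algebraMap k Ω (c * ∏ j ∈ S, (x - b j)) := by
    have hzΩ : algebraMap K Ω z ≠ 0 := (map_ne_zero _).2 hz0
    have h2 : algebraMap K Ω z ^ 2 = algebraMap k Ω c *
        ∏ j ∈ S, algebraMap K Ω (w - algebraMap k K (b j)) := by
      rw [← map_pow, hz, map_mul, map_prod, ← IsScalarTower.algebraMap_apply]
    rw [hyΩ, mul_pow, ← Finset.prod_pow, Finset.prod_congr rfl fun j _ => hY j,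
      Finset.prod_mul_distrib, map_div₀, ← IsScalarTower.algebraMap_apply k K Ω, map_mul, map_prod,
      div_pow]
    field_simp
    linear_combination (-(algebraMap k Ω c) * ∏ j ∈ S, algebraMap k Ω (x - b j)) * h2
  have halg : (y : Ω) ∈ algebraicClosure k Ω := by
    rw [mem_algebraicClosure_iff]
    refine ⟨Polynomial.X ^ 2 - Polynomial.C (c * ∏ j ∈ S, (x - b j)),
      (Polynomial.monic_X_pow_sub_C _ two_ne_zero).ne_zero, ?_⟩
    rw [map_sub, map_pow, Polynomial.aeval_X, Polynomial.aeval_C, hy2, sub_self]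
  obtain ⟨e, he⟩ := fixed_const hs hys halg
  refine ⟨e, ?_⟩
  rw [he, ← map_pow] at hy2
  exact ((algebraMap k Ω).injective hy2).symm

end

end Pool.Agent.Lib.MP_c385f6_ag.Dyadic
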