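import Pool.Agent.Lib.MP_c385f6_ag.Dyadic.Search

set_option autoImplicit false

/-!
Consequences of the finite search.
-/

namespace Pool.Agent.Lib.MP_c385f6_ag.Dyadic

theorem cls_table : ∀ r < 8, clsN 0 r < 8 → clsN 0 r < 8 ∧ ((r : ℤ) * rep (clsN 0 r)) % 8 = 1 := by
  decide +kernel

theorem clsN_zero_mod (m : ℕ) : clsN 0 m = clsN 0 (m % 8) := by
  simp only [clsN, Nat.mod_mod]

theorem isCls_clsN_zero {m : ℕ} (h : clsN 0 m < 8) : IsCls (m : ℚ_[2]) (clsN 0 m) := by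
  rw [clsN_zero_mod] at h
  obtain ⟨h1, h2⟩ := cls_table (m % 8) (Nat.mod_lt _ (by norm_num)) h
  rw [clsN_zero_mod]
  set i := clsN 0 (m % 8) with hi
  have h3 : ((m : ℤ) * rep i) % 8 = 1 := by
    have h5 : (m : ℤ) * rep i = ((m % 8 : ℕ) : ℤ) * rep i + 8 * ((m / 8 : ℕ) * rep i) := by
      have h6 : (m : ℤ) = ((m % 8 : ℕ) : ℤ) + 8 * ((m / 8 : ℕ) : ℤ) := by
        exact_mod_cast (Nat.mod_add_div m 8).symm
      rw [h6]
      ring
    rw [h5, Int.add_mul_emod_self_left]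
    exact h2
  have h4 : chk 0 ((m : ℤ) * rep i) = true := by
    simp [chk, h3]
  have := isCls_of_chk h1 h4
  exact_mod_cast this

theorem isCls_clsN : ∀ (f m : ℕ), clsN f m < 8 → IsCls (m : ℚ_[2]) (clsN f m)
  | 0, m, h => isCls_clsN_zero h
  | f + 1, m, h => by
    by_cases h2 : m % 2 = 0
    · have h1 : clsN (f + 1) m = clsN f (m / 2) ^^^ 1 := by
        rw [clsN, if_pos h2]
      rw [h1] at h ⊢
      have h3 : clsN f (m / 2) < 8 := by
        have h4 : clsN f (m / 2) = (clsN f (m / 2) ^^^ 1) ^^^ 1 := by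
          rw [Nat.xor_assoc, Nat.xor_self, Nat.xor_zero]
        rw [h4]
        exact Nat.xor_lt_two_pow (n := 3) h (by norm_num)
      have h4 := (isCls_clsN f (m / 2) h3).mul isCls_two
      have h5 : (m : ℚ_[2]) = ((m / 2 : ℕ) : ℚ_[2]) * 2 := by
        have h6 : m = m / 2 * 2 := by omega
        have h7 : (m : ℚ_[2]) = ((m / 2 * 2 : ℕ) : ℚ_[2]) := by rw [← h6]
        rw [h7]
        push_cast
        ring
      rw [h5]
      exact h4
    · have h1 : clsN (f + 1) m = clsN 0 m := by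
        conv_lhs => rw [clsN, if_neg h2]
      rw [h1] at h ⊢
      exact isCls_clsN_zero h

theorem clsN_five : ∀ m < 32, 0 < m → clsN 5 m < 8 := by
  decide +kernel

/-- The list of the first `n` classes, the last one first. -/
def patOf (d : ℕ → ℕ) : ℕ → List ℕ
  | 0 => []
  | n + 1 => d n :: patOf d n

theorem patOf_length (d : ℕ → ℕ) : ∀ n, (patOf d n).length = n
  | 0 => rfl
  | n + 1 => by rw [patOf, List.length_cons, patOf_length d n]

theorem okC_patOf (d : ℕ → ℕ) (x : ℕ) : ∀ (n k : ℕ),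
    (∀ a < n, hilb (d a ^^^ clsN 5 (k + (n - 1 - a))) (x ^^^ clsN 5 (k + (n - 1 - a)) ^^^ 2) = false) →
    okC x k (patOf d n) = true
  | 0, k, _ => by simp [patOf, okC]
  | n + 1, k, h => by
    rw [patOf, okC, Bool.and_eq_true]
    constructor
    · have := h n (Nat.lt_succ_self n)
      rw [Nat.add_sub_cancel, Nat.sub_self, Nat.add_zero] at this
      rw [this]
      rfl
    · refine okC_patOf d x n (k + 1) fun a ha => ?_
      have := h a (ha.trans (Nat.lt_succ_self n))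
      have h1 : k + (n + 1 - 1 - a) = k + 1 + (n - 1 - a) := by omega
      rwa [h1] at this

theorem patOf_mem (d : ℕ → ℕ) : ∀ n, (∀ a < n, d a < 8) →
    (∀ a b, a < b → b < n →
      hilb (d a ^^^ clsN 5 (b - a)) (d b ^^^ clsN 5 (b - a) ^^^ 2) = false) →
    patOf d n ∈ patC n
  | 0, _, _ => by simp [patOf, patC]
  | n + 1, h, h' => by
    rw [patOf, patC, extC, List.mem_flatMap]
    refine ⟨patOf d n, patOf_mem d n (fun a ha => h a (ha.trans (Nat.lt_succ_self n)))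
      (fun a b hab hb => h' a b hab (hb.trans (Nat.lt_succ_self n))), ?_⟩
    rw [List.mem_map]
    refine ⟨d n, ?_, rfl⟩
    rw [List.mem_filter, List.mem_range]
    refine ⟨h n (Nat.lt_succ_self n), okC_patOf d (d n) n 1 fun a ha => ?_⟩
    have h1 : 1 + (n - 1 - a) = n - a := by omega
    rw [h1]
    exact h' a n ha (Nat.lt_succ_self n)

theorem realC_patOf (d : ℕ → ℕ) (num q : ℕ) : ∀ n, realC num q (patOf d n) = true →
    ∀ a < n, clsN 16 (num - a * q) = d a
  | 0, _, a, ha => absurd ha (Nat.not_lt_zero a)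
  | n + 1, h, a, ha => by
    rw [patOf, realC, Bool.and_eq_true, patOf_length, beq_iff_eq] at h
    rcases Nat.lt_succ_iff_lt_or_eq.1 ha with h1 | h1
    · exact realC_patOf d num q n h.2 a h1
    · rw [h1]
      exact h.1

theorem allC_mem : ∀ (L : List (List ℕ)) (T : List ℕ), allC L T = true → ∀ p ∈ L,
    ∃ t : ℕ, realC (t / 4) (4 ^ (t % 4)) p = true
  | [], _, _, p, hp => by simp at hp
  | _ :: _, [], h, _, _ => by simp [allC] at h
  | p' :: ps, t :: ts, h, p, hp => by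
    rw [allC, Bool.and_eq_true] at h
    rcases List.mem_cons.1 hp with h1 | h1
    · exact ⟨t, by rw [h1]; exact h.1⟩
    · exact allC_mem ps ts h.2 p h1

theorem exists_tab (n : ℕ) (h9 : 9 ≤ n) (h17 : n ≤ 17) : ∃ T, allC (patC n) T = true := by
  interval_cases n
  · exact ⟨_, all9⟩
  · exact ⟨_, all10⟩
  · exact ⟨_, all11⟩
  · exact ⟨_, all12⟩
  · exact ⟨_, all13⟩
  · exact ⟨_, all14⟩
  · exact ⟨_, all15⟩
  · exact ⟨_, all16⟩
  · exact ⟨_, all17⟩

/-- Each compatible pattern is realised. -/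
theorem base_realised {n : ℕ} (h9 : 9 ≤ n) (h17 : n ≤ 17) (d : ℕ → ℕ) (hd : ∀ a < n, d a < 8)
    (hc : ∀ a b, a < b → b < n →
      hilb (d a ^^^ clsN 5 (b - a)) (d b ^^^ clsN 5 (b - a) ^^^ 2) = false) :
    ∃ x : ℚ_[2], ∀ a < n, IsCls (x - a) (d a) := by
  obtain ⟨T, hT⟩ := exists_tab n h9 h17
  obtain ⟨t, ht⟩ := allC_mem _ _ hT _ (patOf_mem d n hd hc)
  have h1 := realC_patOf d _ _ n ht
  set num := t / 4
  set k := t % 4
  refine ⟨(num : ℚ_[2]) / 4 ^ k, fun a ha => ?_⟩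
  have h2 := h1 a ha
  have h3 : clsN 16 (num - a * 4 ^ k) < 8 := by
    rw [h2]
    exact hd a ha
  have h4 := isCls_clsN 16 _ h3
  rw [h2] at h4
  have h5 : a * 4 ^ k ≤ num := by
    by_contra hcon
    rw [Nat.sub_eq_zero_of_le (not_le.1 hcon).le] at h4
    exact h4.ne_zero (by simp)
  have h2k : (2 : ℚ_[2]) ^ k ≠ 0 := pow_ne_zero _ two_ne_zero
  refine h4.of_mul_sq (e := 1 / 2 ^ k) (one_div_ne_zero h2k) ?_
  rw [Nat.cast_sub h5]
  have h6 : (4 : ℚ_[2]) ^ k = (2 ^ k) ^ 2 := by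
    rw [← pow_mul, mul_comm, pow_mul]
    norm_num
  push_cast
  rw [h6]
  field_simp

end Pool.Agent.Lib.MP_c385f6_ag.Dyadic
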