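import Pool.Agent.Lib.MP_c385f6_ag.Dyadic.Base

set_option autoImplicit false

/-!
Completeness: compatible systems of twists on the integers `0, …, n - 1`, `n ≥ 9`, come from a
`2`-adic number.
-/

namespace Pool.Agent.Lib.MP_c385f6_ag.Dyadic

theorem hilb_add : ∀ i < 8, ∀ j < 8, ∀ k < 8, hilb i j = false → hilb i k = false →
    hilb i (j ^^^ k) = false := by
  decide +kernel

theorem hilb_nondeg : ∀ q < 8, (∀ i < 8, i % 2 = 1 → hilb i q = false) → q = 0 := by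
  decide +kernel

theorem xor_lt {i j : ℕ} (hi : i < 8) (hj : j < 8) : i ^^^ j < 8 :=
  Nat.xor_lt_two_pow (n := 3) hi hj

theorem isCls_neg_one : IsCls (-1 : ℚ_[2]) 2 := by
  have := isCls_of_chk (z := -1) (i := 2) (by norm_num) (f := 0) (by decide +kernel)
  exact_mod_cast this

theorem IsCls.unique {x : ℚ_[2]} {i j : ℕ} (hi : IsCls x i) (hj : IsCls x j) : i = j := by
  have h1 := hi.mul hj
  have hx := hi.ne_zero
  have h2 : IsCls (1 : ℚ_[2]) (i ^^^ j) := h1.of_mul_sq (e := x⁻¹) (inv_ne_zero hx) (by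
    field_simp)
  have h3 : i ^^^ j = 0 := by
    refine hilb_nondeg _ h2.1 fun m hm _ => ?_
    have h4 : IsCls (rep m : ℚ_[2]) m := ⟨hm, 1, one_ne_zero, by ring⟩
    exact hil_of_conic (x := 0) (y := 1) (z := 1) h4 h2 (by ring) one_ne_zero
  exact Nat.xor_eq_zero_iff.1 h3

theorem IsCls.ratio {x y : ℚ_[2]} {i : ℕ} (hx : IsCls x i) (hy : IsCls y i) :
    ∃ e : ℚ_[2], e ≠ 0 ∧ x = y * e ^ 2 := by
  obtain ⟨-, e, he, h1⟩ := hx
  obtain ⟨-, f, hf, h2⟩ := hy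
  refine ⟨e / f, div_ne_zero he hf, ?_⟩
  rw [h1, h2]
  field_simp

/-- All twisted conics belonging to two of the points and infinity have points. -/
def Comp (n : ℕ) (D : ℕ → ℚ_[2]) : Prop :=
  (∀ a < n, D a ≠ 0) ∧ ∀ a b, a < b → b < n →
    ∃ X Y : ℚ_[2], D a * X ^ 2 - D b * Y ^ 2 = (b : ℚ_[2]) - a

/-- The twists are those of a `2`-adic number. -/
def Realised (n : ℕ) (D : ℕ → ℚ_[2]) : Prop :=
  ∃ x : ℚ_[2], ∀ a < n, ∃ e : ℚ_[2], e ≠ 0 ∧ x - a = D a * e ^ 2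

theorem Comp.symm {n : ℕ} {D : ℕ → ℚ_[2]} (hD : Comp n D) {a b : ℕ} (ha : a < n) (hb : b < n)
    (hab : a ≠ b) : ∃ X Y : ℚ_[2], D a * X ^ 2 - D b * Y ^ 2 = (b : ℚ_[2]) - a := by
  rcases Nat.lt_or_gt_of_ne hab with h | h
  · exact hD.2 a b h hb
  · obtain ⟨X, Y, h1⟩ := hD.2 b a h ha
    exact ⟨Y, X, by linear_combination -h1⟩

theorem hilb_of_rel {α β c X Y : ℚ_[2]} {i j : ℕ} (hi : IsCls (α * c) i)
    (hj : IsCls (-(β * c)) j) (hc : c ≠ 0) (h : α * X ^ 2 - β * Y ^ 2 = c) :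
    hilb i j = false :=
  hil_of_conic (x := X) (y := Y) (z := c) hi hj (by linear_combination c * h) hc

theorem IsCls.neg {x : ℚ_[2]} {i : ℕ} (hx : IsCls x i) : IsCls (-x) (i ^^^ 2) := by
  have h := hx.mul isCls_neg_one
  rwa [mul_neg_one] at h

theorem complete_base {n : ℕ} (h9 : 9 ≤ n) (h17 : n ≤ 17) {D : ℕ → ℚ_[2]} (hD : Comp n D) :
    Realised n D := by
  classical
  have h1 : ∀ a, ∃ i, a < n → IsCls (D a) i := by
    intro a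
    by_cases ha : a < n
    · obtain ⟨i, hi⟩ := exists_isCls (hD.1 a ha)
      exact ⟨i, fun _ => hi⟩
    · exact ⟨0, fun h => absurd h ha⟩
  choose d hd using h1
  obtain ⟨x, hx⟩ := base_realised h9 h17 d (fun a ha => (hd a ha).1) (fun a b hab hb => by
    obtain ⟨X, Y, h2⟩ := hD.2 a b hab hb
    have hm : IsCls ((b : ℚ_[2]) - a) (clsN 5 (b - a)) := by
      have := isCls_clsN 5 (b - a) (clsN_five _ (by omega) (by omega))
      rwa [Nat.cast_sub hab.le] at this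
    exact hilb_of_rel ((hd a (hab.trans hb)).mul hm) ((hd b hb).mul hm).neg hm.ne_zero h2)
  exact ⟨x, fun a ha => (hx a ha).ratio (hd a ha)⟩

theorem span_table' : ((List.range 8).all fun r => (List.range 8).all fun β =>
    (List.range 8).all fun i => !(β % 2 == 1 && i % 2 == 1) || (List.range 8).any fun a =>
      rep i % 2 == 0 && ((r : ℤ) - (a : ℤ)) * ((β : ℤ) - 2 * (a : ℤ)) * (rep i / 2) % 8 == 1) =
    true := by
  decide +kernel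

theorem span_table {r β i : ℕ} (hr : r < 8) (hβ : β < 8) (hβ' : β % 2 = 1) (hi : i < 8)
    (hi' : i % 2 = 1) : ∃ a : ℕ, a < 8 ∧ rep i % 2 = 0 ∧
      ((r : ℤ) - (a : ℤ)) * ((β : ℤ) - 2 * (a : ℤ)) * (rep i / 2) % 8 = 1 := by
  have h := span_table'
  simp only [List.all_eq_true, List.mem_range] at h
  have h1 := h r hr β hβ i hi
  rw [hβ', hi'] at h1
  simp only [beq_self_eq_true, Bool.and_self, Bool.not_true, Bool.false_or, List.any_eq_true,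
    List.mem_range, Bool.and_eq_true, beq_iff_eq] at h1
  exact h1

theorem isCls_two_mul {N : ℤ} {w : ℤ_[2]} {i : ℕ} (hi : i < 8) (h2 : rep i % 2 = 0)
    (h : N * (rep i / 2) % 8 = 1) : IsCls (2 * ((N : ℚ_[2]) + 8 * w)) i := by
  have h3 : rep i = 2 * (rep i / 2) := by omega
  obtain ⟨e, he, h4⟩ : ∃ e : ℚ_[2], e ≠ 0 ∧
      ((N : ℚ_[2]) + 8 * w) * ((rep i / 2 : ℤ) : ℚ_[2]) = e ^ 2 := by
    refine sq_of_eight (((N * (rep i / 2) / 8 : ℤ) : ℤ_[2]) + w * ((rep i / 2 : ℤ) : ℤ_[2])) ?_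
    have h4 : N * (rep i / 2) = 1 + 8 * (N * (rep i / 2) / 8) := by omega
    have h5 : (N : ℚ_[2]) * ((rep i / 2 : ℤ) : ℚ_[2]) =
        1 + 8 * ((N * (rep i / 2) / 8 : ℤ) : ℚ_[2]) := by
      exact_mod_cast congrArg (fun z : ℤ => (z : ℚ_[2])) h4
    push_cast
    linear_combination h5
  have h5 : (rep i : ℚ_[2]) = 2 * ((rep i / 2 : ℤ) : ℚ_[2]) := by
    exact_mod_cast congrArg (fun z : ℤ => (z : ℚ_[2])) h3
  have h6 := rep_ne_zero i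
  refine ⟨hi, 2 * e / rep i, div_ne_zero (mul_ne_zero two_ne_zero he) h6, ?_⟩
  field_simp
  linear_combination 2 * h4 + ((N : ℚ_[2]) + 8 * w) * h5

theorem exists_span (x' : ℤ_[2]) {β : ℤ} (hβ : β % 2 = 1) {i : ℕ} (hi : i < 8)
    (hi2 : i % 2 = 1) : ∃ a < 8, IsCls (2 * ((x' : ℚ_[2]) - (a : ℕ)) * (β - 2 * (a : ℕ))) i := by
  obtain ⟨r, hr, t, ht⟩ := exists_mod_eight x'
  obtain ⟨b, hb⟩ : ∃ b : ℕ, (b : ℤ) = β % 8 := ⟨(β % 8).toNat, by omega⟩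
  obtain ⟨a, ha, h1, h2⟩ := span_table (β := b) hr (by omega) (by omega) hi hi2
  refine ⟨a, ha, ?_⟩
  have h3 := isCls_two_mul (N := ((r : ℤ) - a) * (b - 2 * a))
    (w := t * (β - 2 * a) + (r - a) * ((β / 8 : ℤ) : ℤ_[2])) hi h1 h2
  have h4 : (β : ℚ_[2]) = (b : ℚ_[2]) + 8 * ((β / 8 : ℤ) : ℚ_[2]) := by
    have h5 : β = b + 8 * (β / 8) := by omega
    exact_mod_cast congrArg (fun z : ℤ => (z : ℚ_[2])) h5
  have h5 : (x' : ℚ_[2]) = r + 8 * t := by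
    have := congrArg (fun z : ℤ_[2] => (z : ℚ_[2])) ht
    have h8 : ((8 : ℤ_[2]) : ℚ_[2]) = 8 := map_ofNat (PadicInt.Coe.ringHom (p := 2)) 8
    push_cast at this
    rw [h8] at this
    exact this
  have h6 : 2 * ((x' : ℚ_[2]) - (a : ℕ)) * (β - 2 * (a : ℕ)) =
      2 * ((((((r : ℤ) - a) * (b - 2 * a) : ℤ)) : ℚ_[2]) +
        8 * ((t * (β - 2 * a) + (r - a) * ((β / 8 : ℤ) : ℤ_[2]) : ℤ_[2]) : ℚ_[2])) := by
    have h2' : ((2 : ℤ_[2]) : ℚ_[2]) = 2 := map_ofNat (PadicInt.Coe.ringHom (p := 2)) 2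
    push_cast
    rw [h2', h5]
    linear_combination 2 * (r - a) * h4
  rw [h6]
  exact h3

theorem propagate {n : ℕ} (hn : 16 ≤ n) {D : ℕ → ℚ_[2]} (hD : Comp n D) {ρ : ℕ} (hρ : ρ < 2)
    {x' : ℤ_[2]} (hx : ∀ a < n, a % 2 = ρ →
      ∃ e : ℚ_[2], e ≠ 0 ∧ (ρ : ℚ_[2]) + 2 * x' - a = D a * e ^ 2)
    {b : ℕ} (hb : b < n) (hb2 : b % 2 ≠ ρ) :
    ∃ e : ℚ_[2], e ≠ 0 ∧ (ρ : ℚ_[2]) + 2 * x' - b = D b * e ^ 2 := by
  have hβ : ((b : ℤ) - ρ) % 2 = 1 := by omega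
  have hxb : (ρ : ℚ_[2]) + 2 * x' - b ≠ 0 := by
    intro h0
    have h1 : ((((b : ℤ) - ρ : ℤ)) : ℚ_[2]) = 2 * x' := by
      push_cast
      linear_combination -h0
    have h2 : ‖((((b : ℤ) - ρ : ℤ)) : ℚ_[2])‖ < 1 := by
      rw [h1, norm_mul]
      have h3 : ‖(2 : ℚ_[2])‖ < 1 := by
        have : (2 : ℚ_[2]) = ((2 : ℤ) : ℚ_[2]) := by norm_num
        rw [this, Padic.norm_intCast_lt_one_iff]
        norm_num
      have h4 : ‖(x' : ℚ_[2])‖ ≤ 1 := x'.2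
      nlinarith [norm_nonneg (x' : ℚ_[2]), norm_nonneg (2 : ℚ_[2])]
    rw [Padic.norm_intCast_lt_one_iff] at h2
    push_cast at h2
    omega
  obtain ⟨j, hj⟩ := exists_isCls (hD.1 b hb)
  obtain ⟨k, hk⟩ := exists_isCls hxb
  have hjk : j ^^^ k = 0 := by
    refine hilb_nondeg _ (xor_lt hj.1 hk.1) fun i hi hi2 => ?_
    obtain ⟨a', ha', hcls⟩ := exists_span x' hβ hi hi2
    have ha : ρ + 2 * a' < n := by omega
    have hab : ρ + 2 * a' ≠ b := by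
      intro h
      apply hb2
      omega
    obtain ⟨e, he, h1⟩ := hx (ρ + 2 * a') ha (by omega)
    obtain ⟨X, Y, h2⟩ := hD.symm ha hb hab
    have hba : ((b : ℚ_[2]) - ((ρ + 2 * a' : ℕ) : ℚ_[2])) ≠ 0 := by
      rw [sub_ne_zero]
      exact_mod_cast hab.symm
    obtain ⟨m, hm⟩ := exists_isCls hba
    have hcls2 : IsCls (((ρ : ℚ_[2]) + 2 * x' - ((ρ + 2 * a' : ℕ) : ℚ_[2])) *
        ((b : ℚ_[2]) - ((ρ + 2 * a' : ℕ) : ℚ_[2]))) i := by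
      have h3 : ((ρ : ℚ_[2]) + 2 * x' - ((ρ + 2 * a' : ℕ) : ℚ_[2])) *
          ((b : ℚ_[2]) - ((ρ + 2 * a' : ℕ) : ℚ_[2])) =
          2 * ((x' : ℚ_[2]) - (a' : ℕ)) * ((((b : ℤ) - ρ : ℤ) : ℚ_[2]) - 2 * (a' : ℕ)) := by
        push_cast
        ring
      rw [h3]
      exact hcls
    have hcls3 : IsCls (D (ρ + 2 * a') * ((b : ℚ_[2]) - ((ρ + 2 * a' : ℕ) : ℚ_[2]))) i := by
      refine hcls2.of_mul_sq (e := e⁻¹) (inv_ne_zero he) ?_
      rw [h1]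
      field_simp
    have hA := hilb_of_rel hcls3 (hj.mul hm).neg hba h2
    have hB := hilb_of_rel (X := 1) (Y := 1) hcls2 (hk.mul hm).neg hba (by ring)
    have h4 := hilb_add i hi _ (xor_lt (xor_lt hj.1 hm.1) (by norm_num)) _
      (xor_lt (xor_lt hk.1 hm.1) (by norm_num)) hA hB
    have h5 : (j ^^^ m ^^^ 2) ^^^ (k ^^^ m ^^^ 2) = j ^^^ k := by
      have h6 : (j ^^^ m ^^^ 2) ^^^ (k ^^^ m ^^^ 2) = (j ^^^ k) ^^^ ((m ^^^ m) ^^^ (2 ^^^ 2)) := by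
        ac_rfl
      rw [h6, Nat.xor_self, Nat.xor_self, Nat.xor_self, Nat.xor_zero]
    rwa [h5] at h4
  rw [Nat.xor_eq_zero_iff] at hjk
  subst hjk
  exact hk.ratio hj

end Pool.Agent.Lib.MP_c385f6_ag.Dyadic
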