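import Mathlib

set_option autoImplicit false

/-!
Square classes of `2`-adic numbers and the Hilbert symbol over `ℚ_[2]`.
-/

namespace Pool.Agent.Lib.MP_c385f6_ag.Dyadic

open Polynomial

theorem isSquare_one_add_eight (w : ℤ_[2]) : IsSquare (1 + 8 * w) := by
  set F : ℤ_[2][X] := X ^ 2 + X - C (2 * w) with hF
  have h0 : aeval (0 : ℤ_[2]) F = - (2 * w) := by simp [hF]
  have h1 : aeval (0 : ℤ_[2]) (derivative F) = 1 := by
    simp [hF]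
  have h2 : ‖aeval (0 : ℤ_[2]) F‖ < ‖aeval (0 : ℤ_[2]) (derivative F)‖ ^ 2 := by
    rw [h0, h1, norm_neg, norm_one, one_pow, PadicInt.norm_lt_one_iff_dvd]
    exact ⟨w, by norm_num⟩
  obtain ⟨z, hz, -⟩ := hensels_lemma h2
  refine ⟨1 + 2 * z, ?_⟩
  have h3 : z ^ 2 + z - 2 * w = 0 := by
    have : aeval z F = z ^ 2 + z - 2 * w := by simp [hF]
    rw [← this, hz]
  linear_combination (-4) * h3

/-- An element of the form `1 + 8 w` is a non-zero square. -/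
theorem sq_of_eight {x : ℚ_[2]} (w : ℤ_[2]) (hx : x = 1 + 8 * w) : ∃ e : ℚ_[2], e ≠ 0 ∧ x = e ^ 2 := by
  obtain ⟨r, hr⟩ := isSquare_one_add_eight w
  have h : x = (r : ℚ_[2]) ^ 2 := by
    have h1 : ((1 + 8 * w : ℤ_[2]) : ℚ_[2]) = ((r * r : ℤ_[2]) : ℚ_[2]) := by rw [hr]
    have h8 : ((8 : ℤ_[2]) : ℚ_[2]) = 8 := map_ofNat (PadicInt.Coe.ringHom (p := 2)) 8
    push_cast at h1
    rw [h8] at h1
    rw [hx, h1]
    ring
  refine ⟨r, ?_, h⟩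
  intro h0
  rw [h0] at h
  have h1 : x = 0 := by rw [h]; ring
  have h2 : (1 : ℚ_[2]) = -(8 * w) := by linear_combination hx.symm.trans h1
  have h3 : ‖(1 : ℚ_[2])‖ < 1 := by
    rw [h2, norm_neg, norm_mul]
    have h4 : ‖(8 : ℚ_[2])‖ < 1 := by
      have : (8 : ℚ_[2]) = ((8 : ℤ) : ℚ_[2]) := by norm_num
      rw [this, Padic.norm_intCast_lt_one_iff]
      norm_num
    have h5 : ‖(w : ℚ_[2])‖ ≤ 1 := w.2
    have h6 : 0 ≤ ‖(8 : ℚ_[2])‖ := norm_nonneg _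
    nlinarith [norm_nonneg (w : ℚ_[2])]
  rw [norm_one] at h3
  exact lt_irrefl _ h3

/-- The representatives of the eight square classes. -/
def rep : ℕ → ℤ
  | 0 => 1
  | 1 => 2
  | 2 => 7
  | 3 => 14
  | 4 => 5
  | 5 => 10
  | 6 => 3
  | 7 => 6
  | _ => 1

/-- Test for integers that are non-zero squares in `ℚ_[2]`. -/
def chk : ℕ → ℤ → Bool
  | 0, z => z % 8 == 1
  | f + 1, z => z % 8 == 1 || (z % 4 == 0 && chk f (z / 4))

theorem sq_of_mod {z : ℤ} (h : z % 8 = 1) : ∃ e : ℚ_[2], e ≠ 0 ∧ (z : ℚ_[2]) = e ^ 2 := by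
  refine sq_of_eight ((z / 8 : ℤ) : ℤ_[2]) ?_
  have h1 : z = 1 + 8 * (z / 8) := by omega
  have h2 : (z : ℚ_[2]) = ((1 + 8 * (z / 8) : ℤ) : ℚ_[2]) := by rw [← h1]
  rw [h2]
  push_cast
  rfl

theorem sq_of_chk : ∀ (f : ℕ) (z : ℤ), chk f z = true → ∃ e : ℚ_[2], e ≠ 0 ∧ (z : ℚ_[2]) = e ^ 2
  | 0, z, h => sq_of_mod (by simpa [chk] using h)
  | f + 1, z, h => by
    simp only [chk, Bool.or_eq_true, beq_iff_eq, Bool.and_eq_true] at h
    rcases h with h | ⟨h, h'⟩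
    · exact sq_of_mod h
    · obtain ⟨e, he, h1⟩ := sq_of_chk f (z / 4) h'
      refine ⟨2 * e, mul_ne_zero two_ne_zero he, ?_⟩
      have h2 : z = 4 * (z / 4) := by omega
      have h3 : (z : ℚ_[2]) = ((4 * (z / 4) : ℤ) : ℚ_[2]) := by rw [← h2]
      rw [h3]
      push_cast
      rw [h1]
      ring

/-- `x` lies in the square class with number `i`. -/
def IsCls (x : ℚ_[2]) (i : ℕ) : Prop := i < 8 ∧ ∃ e : ℚ_[2], e ≠ 0 ∧ x = rep i * e ^ 2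

theorem rep_ne_zero (i : ℕ) : (rep i : ℚ_[2]) ≠ 0 := by
  have : rep i ≠ 0 := by
    rcases i with _ | _ | _ | _ | _ | _ | _ | _ | i <;> simp [rep]
  exact_mod_cast this

theorem IsCls.ne_zero {x : ℚ_[2]} {i : ℕ} (h : IsCls x i) : x ≠ 0 := by
  obtain ⟨-, e, he, rfl⟩ := h
  exact mul_ne_zero (rep_ne_zero i) (pow_ne_zero _ he)

theorem isCls_of_chk {z : ℤ} {i : ℕ} (hi : i < 8) {f : ℕ} (h : chk f (z * rep i) = true) :
    IsCls (z : ℚ_[2]) i := by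
  obtain ⟨e, he, h1⟩ := sq_of_chk f _ h
  refine ⟨hi, e / rep i, div_ne_zero he (rep_ne_zero i), ?_⟩
  have h2 := rep_ne_zero i
  push_cast at h1
  field_simp
  linear_combination h1

theorem mul_table : ∀ i < 8, ∀ j < 8, (i ^^^ j) < 8 ∧ chk 3 (rep i * rep j * rep (i ^^^ j)) = true := by
  decide

theorem IsCls.mul {x y : ℚ_[2]} {i j : ℕ} (hx : IsCls x i) (hy : IsCls y j) :
    IsCls (x * y) (i ^^^ j) := by
  obtain ⟨hi, e, he, rfl⟩ := hx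
  obtain ⟨hj, f, hf, rfl⟩ := hy
  obtain ⟨h1, h2⟩ := mul_table i hi j hj
  obtain ⟨-, g, hg, h3⟩ := isCls_of_chk h1 h2
  refine ⟨h1, g * e * f, mul_ne_zero (mul_ne_zero hg he) hf, ?_⟩
  push_cast at h3
  linear_combination (e ^ 2 * f ^ 2) * h3

theorem IsCls.mul_sq {x e : ℚ_[2]} {i : ℕ} (hx : IsCls x i) (he : e ≠ 0) :
    IsCls (x * e ^ 2) i := by
  obtain ⟨hi, f, hf, rfl⟩ := hx
  exact ⟨hi, f * e, mul_ne_zero hf he, by ring⟩

theorem IsCls.of_mul_sq {x y e : ℚ_[2]} {i : ℕ} (hx : IsCls x i) (he : e ≠ 0)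
    (h : y = x * e ^ 2) : IsCls y i := h ▸ hx.mul_sq he

/-- A `2`-adic unit is congruent to an odd number modulo eight. -/
theorem exists_mod_eight (u : ℤ_[2]) : ∃ r : ℕ, r < 8 ∧ ∃ t : ℤ_[2], u = r + 8 * t := by
  refine ⟨(PadicInt.toZModPow 3 u).val, ?_, ?_⟩
  · exact ZMod.val_lt _
  · have h1 : PadicInt.toZModPow 3 (u - ((PadicInt.toZModPow 3 u).val : ℤ_[2])) = 0 := by
      rw [map_sub, map_natCast, ZMod.natCast_zmod_val, sub_self]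
    rw [← RingHom.mem_ker, PadicInt.ker_toZModPow, Ideal.mem_span_singleton] at h1
    obtain ⟨t, ht⟩ := h1
    refine ⟨t, ?_⟩
    have h2 : ((2 : ℕ) : ℤ_[2]) ^ 3 = 8 := by norm_num
    rw [h2] at ht
    linear_combination ht

theorem odd_of_norm {u t : ℤ_[2]} {r : ℕ} (hu : ‖u‖ = 1) (h : u = r + 8 * t) : r % 2 = 1 := by
  by_contra hr
  have h1 : ‖u‖ < 1 := by
    rw [PadicInt.norm_lt_one_iff_dvd]
    refine ⟨((r / 2 : ℕ) : ℤ_[2]) + 4 * t, ?_⟩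
    have h2 : r = 2 * (r / 2) := by omega
    have h3 : (r : ℤ_[2]) = ((2 * (r / 2) : ℕ) : ℤ_[2]) := by rw [← h2]
    rw [h, h3]
    push_cast
    ring
  linarith

theorem exists_isCls_unit {u : ℚ_[2]} (hu : ‖u‖ = 1) : ∃ i, IsCls u i ∧ i % 2 = 0 := by
  obtain ⟨u', rfl⟩ : ∃ u' : ℤ_[2], (u' : ℚ_[2]) = u := ⟨⟨u, hu.le⟩, rfl⟩
  have hu' : ‖u'‖ = 1 := by rw [PadicInt.norm_def]; exact hu
  obtain ⟨r, hr, t, ht⟩ := exists_mod_eight u'
  have hodd := odd_of_norm hu' ht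
  obtain ⟨i, hi, h⟩ : ∃ i < 8, i % 2 = 0 ∧ ((r : ℤ) * rep i) % 8 = 1 := by
    clear ht
    interval_cases r <;> first | omega | decide
  obtain ⟨h1, h2⟩ := h
  obtain ⟨e, he, h3⟩ : ∃ e : ℚ_[2], e ≠ 0 ∧ (u' : ℚ_[2]) * rep i = e ^ 2 := by
    refine sq_of_eight (((r * rep i / 8 : ℤ) : ℤ_[2]) + t * rep i) ?_
    have h4 : (r : ℤ) * rep i = 1 + 8 * (r * rep i / 8) := by omega
    have h5 : ((r : ℤ) : ℚ_[2]) * (rep i : ℤ) = 1 + 8 * ((r * rep i / 8 : ℤ) : ℚ_[2]) := by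
      exact_mod_cast congrArg (fun z : ℤ => (z : ℚ_[2])) h4
    have h8 : ((8 : ℤ_[2]) : ℚ_[2]) = 8 := map_ofNat (PadicInt.Coe.ringHom (p := 2)) 8
    rw [ht]
    push_cast at h5 ⊢
    rw [h8]
    linear_combination h5
  refine ⟨i, ⟨hi, e / rep i, div_ne_zero he (rep_ne_zero i), ?_⟩, h1⟩
  have h2 := rep_ne_zero i
  field_simp
  linear_combination h3

theorem isCls_two : IsCls (2 : ℚ_[2]) 1 := ⟨by norm_num, 1, one_ne_zero, by norm_num [rep]⟩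

theorem exists_isCls {x : ℚ_[2]} (hx : x ≠ 0) : ∃ i, IsCls x i := by
  have h2 : (2 : ℚ_[2]) ≠ 0 := two_ne_zero
  set n := x.valuation with hn
  have hu : ‖x * (2 : ℚ_[2]) ^ (-n)‖ = 1 := by
    have h3 : ‖((2 : ℕ) : ℚ_[2]) ^ (-n)‖ = ((2 : ℕ) : ℝ) ^ (-(-n)) := Padic.norm_p_zpow (-n)
    rw [norm_mul, Padic.norm_eq_zpow_neg_valuation hx, ← hn]
    push_cast at h3
    rw [h3]
    push_cast
    rw [← zpow_add₀ (by norm_num : (2 : ℝ) ≠ 0)]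
    simp
  obtain ⟨i, hi, -⟩ := exists_isCls_unit hu
  have h4 : x = x * (2 : ℚ_[2]) ^ (-n) * (2 : ℚ_[2]) ^ n := by
    rw [mul_assoc, ← zpow_add₀ h2]
    simp
  rcases Int.even_or_odd' n with ⟨m, hm | hm⟩
  · refine ⟨i, hi.of_mul_sq (e := (2 : ℚ_[2]) ^ m) (zpow_ne_zero _ h2) ?_⟩
    rw [← zpow_natCast, ← zpow_mul]
    push_cast
    rw [mul_comm m 2, ← hm]
    exact h4
  · refine ⟨1 ^^^ i, (isCls_two.mul hi).of_mul_sq (e := (2 : ℚ_[2]) ^ m) (zpow_ne_zero _ h2) ?_⟩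
    have h5 : (2 : ℚ_[2]) ^ n = 2 * ((2 : ℚ_[2]) ^ m) ^ 2 := by
      rw [← zpow_natCast, ← zpow_mul]
      push_cast
      rw [mul_comm m 2, hm, zpow_add₀ h2, zpow_one, mul_comm]
    calc x = x * (2 : ℚ_[2]) ^ (-n) * (2 : ℚ_[2]) ^ n := h4
      _ = 2 * (x * (2 : ℚ_[2]) ^ (-n)) * ((2 : ℚ_[2]) ^ m) ^ 2 := by rw [h5]; ring

/-- The Hilbert symbol on square classes. -/
def hilb (i j : ℕ) : Bool :=
  xor (i.testBit 1 && j.testBit 1) (xor (i.testBit 0 && j.testBit 2) (j.testBit 0 && i.testBit 2))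

theorem hil_table : (List.range 8).all (fun i => (List.range 8).all fun j => !hilb i j ||
    ([0, 1, 4, 9] : List ℤ).all fun p => ([0, 1, 4, 9] : List ℤ).all fun q =>
    ([0, 1, 4, 9] : List ℤ).all fun r => !(p == 1 || p == 9 || q == 1 || q == 9 || r == 1 || r == 9) ||
      (rep i * p + rep j * q - r) % 16 != 0) = true := by
  decide

theorem sq_mem (x : ZMod 16) : ∃ p ∈ ([0, 1, 4, 9] : List ℤ), x ^ 2 = (p : ZMod 16) := by
  revert x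
  decide

theorem sq_unit (x y : ZMod 16) (h : x * y = 1) : ∃ p ∈ ([1, 9] : List ℤ), x ^ 2 = (p : ZMod 16) := by
  revert x y
  decide

theorem sq_cases (x : ℤ_[2]) : ∃ p ∈ ([0, 1, 4, 9] : List ℤ),
    (PadicInt.toZModPow 4 x) ^ 2 = (p : ZMod 16) ∧ (‖x‖ = 1 → (p = 1 ∨ p = 9)) := by
  by_cases hx : ‖x‖ = 1
  · have hu : IsUnit x := PadicInt.isUnit_iff.2 hx
    obtain ⟨y, hy⟩ := hu.exists_right_inv
    have h1 : PadicInt.toZModPow 4 x * PadicInt.toZModPow 4 y = 1 := by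
      rw [← map_mul, hy, map_one]
    obtain ⟨p, hp, h2⟩ := sq_unit _ _ h1
    refine ⟨p, ?_, h2, fun _ => by simpa using hp⟩
    simp only [List.mem_cons, List.not_mem_nil, or_false] at hp ⊢
    tauto
  · obtain ⟨p, hp, h2⟩ := sq_mem (PadicInt.toZModPow 4 x)
    exact ⟨p, hp, h2, fun h => absurd h hx⟩

theorem hil_of_int {i j : ℕ} (hi : i < 8) (hj : j < 8) {x y z : ℤ_[2]}
    (h : (rep i : ℤ_[2]) * x ^ 2 + rep j * y ^ 2 = z ^ 2) (hu : ‖x‖ = 1 ∨ ‖y‖ = 1 ∨ ‖z‖ = 1) :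
    hilb i j = false := by
  obtain ⟨p, hp, hp1, hp2⟩ := sq_cases x
  obtain ⟨q, hq, hq1, hq2⟩ := sq_cases y
  obtain ⟨r, hr, hr1, hr2⟩ := sq_cases z
  have h1 := congrArg (PadicInt.toZModPow 4) h
  rw [map_add, map_mul, map_mul, map_pow, map_pow, map_pow, map_intCast, map_intCast, hp1, hq1,
    hr1] at h1
  have h2 : ((rep i * p + rep j * q - r : ℤ) : ZMod (2 ^ 4)) = 0 := by
    push_cast
    linear_combination h1
  rw [ZMod.intCast_zmod_eq_zero_iff_dvd] at h2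
  have h3 : (rep i * p + rep j * q - r) % 16 = 0 := by
    push_cast at h2
    omega
  have h4 := hil_table
  simp only [List.all_eq_true, List.mem_range] at h4
  have h5 := h4 i hi j hj
  by_contra hne
  have h6 : hilb i j = true := by simpa using hne
  rw [h6] at h5
  simp only [Bool.not_true, Bool.false_or, List.all_eq_true] at h5
  have h7 := h5 p hp q hq r hr
  simp only [h3, bne_self_eq_false, Bool.or_false, Bool.not_eq_true', Bool.or_eq_false_iff,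
    beq_eq_false_iff_ne] at h7
  obtain ⟨⟨⟨⟨⟨a1, a2⟩, a3⟩, a4⟩, a5⟩, a6⟩ := h7
  rcases hu with hu | hu | hu
  · rcases hp2 hu with h | h <;> contradiction
  · rcases hq2 hu with h | h <;> contradiction
  · rcases hr2 hu with h | h <;> contradiction

theorem hil_of_rep {i j : ℕ} (hi : i < 8) (hj : j < 8) {x y z : ℚ_[2]}
    (h : (rep i : ℚ_[2]) * x ^ 2 + rep j * y ^ 2 = z ^ 2) (hz : z ≠ 0) : hilb i j = false := by
  -- divide by the element of maximal norm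
  obtain ⟨T, hT, hx, hy, hz', h1⟩ : ∃ T : ℚ_[2], T ≠ 0 ∧ ‖x‖ ≤ ‖T‖ ∧ ‖y‖ ≤ ‖T‖ ∧ ‖z‖ ≤ ‖T‖ ∧
      (T = x ∨ T = y ∨ T = z) := by
    have hz0 : 0 < ‖z‖ := norm_pos_iff.2 hz
    rcases le_total ‖x‖ ‖y‖ with h1 | h1
    · rcases le_total ‖y‖ ‖z‖ with h2 | h2
      · exact ⟨z, hz, h1.trans h2, h2, le_rfl, by simp⟩
      · exact ⟨y, norm_pos_iff.1 (hz0.trans_le h2), h1, le_rfl, h2, by simp⟩
    · rcases le_total ‖x‖ ‖z‖ with h2 | h2
      · exact ⟨z, hz, h2, h1.trans h2, le_rfl, by simp⟩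
      · exact ⟨x, norm_pos_iff.1 (hz0.trans_le h2), le_rfl, h1, h2, by simp⟩
  have hT0 : 0 < ‖T‖ := norm_pos_iff.2 hT
  have hd : ∀ {t : ℚ_[2]}, ‖t‖ ≤ ‖T‖ → ‖t / T‖ ≤ 1 := by
    intro t ht
    rw [norm_div]
    exact (div_le_one hT0).2 ht
  obtain ⟨x', hx'⟩ : ∃ x' : ℤ_[2], (x' : ℚ_[2]) = x / T := ⟨⟨_, hd hx⟩, rfl⟩
  obtain ⟨y', hy'⟩ : ∃ y' : ℤ_[2], (y' : ℚ_[2]) = y / T := ⟨⟨_, hd hy⟩, rfl⟩
  obtain ⟨z', hz''⟩ : ∃ z' : ℤ_[2], (z' : ℚ_[2]) = z / T := ⟨⟨_, hd hz'⟩, rfl⟩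
  have h2 : (rep i : ℤ_[2]) * x' ^ 2 + rep j * y' ^ 2 = z' ^ 2 := by
    have h3 : (((rep i : ℤ_[2]) * x' ^ 2 + rep j * y' ^ 2 : ℤ_[2]) : ℚ_[2]) =
        ((z' ^ 2 : ℤ_[2]) : ℚ_[2]) := by
      push_cast
      rw [hx', hy', hz'']
      field_simp
      exact h
    exact Subtype.coe_injective h3
  refine hil_of_int hi hj h2 ?_
  rcases h1 with rfl | rfl | rfl
  · left
    rw [PadicInt.norm_def, hx', div_self hT, norm_one]
  · right; left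
    rw [PadicInt.norm_def, hy', div_self hT, norm_one]
  · right; right
    rw [PadicInt.norm_def, hz'', div_self hT, norm_one]

/-- If `α X ^ 2 + β Y ^ 2` represents a non-zero square, the symbol of `α` and `β` vanishes. -/
theorem hil_of_conic {α β x y z : ℚ_[2]} {i j : ℕ} (hα : IsCls α i) (hβ : IsCls β j)
    (h : α * x ^ 2 + β * y ^ 2 = z ^ 2) (hz : z ≠ 0) : hilb i j = false := by
  obtain ⟨hi, e, he, rfl⟩ := hα
  obtain ⟨hj, f, hf, rfl⟩ := hβ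
  exact hil_of_rep hi hj (x := e * x) (y := f * y) (by linear_combination h) hz

end Pool.Agent.Lib.MP_c385f6_ag.Dyadic
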