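import Pool.Agent.Lib.MP_c385f6_ag.Dyadic.Complete

set_option autoImplicit false

/-!
The induction: all lengths.
-/

namespace Pool.Agent.Lib.MP_c385f6_ag.Dyadic

theorem norm_eight_sub {a b : ℕ} (h : a % 8 = b % 8) :
    ∃ t : ℤ, (a : ℚ_[2]) - b = 8 * (t : ℚ_[2]) := by
  refine ⟨(a : ℤ) / 8 - (b : ℤ) / 8, ?_⟩
  have h1 : (a : ℤ) - b = 8 * ((a : ℤ) / 8 - (b : ℤ) / 8) := by omega
  exact_mod_cast congrArg (fun z : ℤ => (z : ℚ_[2])) h1

theorem norm_nat_le (a : ℕ) : ‖(a : ℚ_[2])‖ ≤ 1 := by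
  have := Padic.norm_int_le_one (p := 2) a
  exact_mod_cast this

theorem norm_two_lt : ‖(2 : ℚ_[2])‖ < 1 := by
  have : (2 : ℚ_[2]) = ((2 : ℤ) : ℚ_[2]) := by norm_num
  rw [this, Padic.norm_intCast_lt_one_iff]
  norm_num

theorem norm_two : ‖(2 : ℚ_[2])‖ = 1 / 2 := by
  have := Padic.norm_p (p := 2)
  push_cast at this
  rw [this]
  norm_num

/-- A norm larger than one is at least two. -/
theorem two_le_norm {x : ℚ_[2]} (h : 1 < ‖x‖) : 2 ≤ ‖x‖ := by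
  have hx : x ≠ 0 := by
    rintro rfl
    rw [norm_zero] at h
    linarith
  rw [Padic.norm_eq_zpow_neg_valuation hx] at h ⊢
  push_cast at h ⊢
  have h1 : (0 : ℤ) < -x.valuation := by
    by_contra hcon
    have h2 : (2 : ℝ) ^ (-x.valuation) ≤ 2 ^ (0 : ℤ) :=
      zpow_le_zpow_right₀ (by norm_num) (by omega)
    rw [zpow_zero] at h2
    linarith
  calc (2 : ℝ) = 2 ^ (1 : ℤ) := (zpow_one _).symm
    _ ≤ 2 ^ (-x.valuation) := zpow_le_zpow_right₀ (by norm_num) (by omega)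

theorem norm_sq_ne_eighth (w : ℚ_[2]) : ‖w‖ ^ 2 ≠ 1 / 8 := by
  intro h
  have hw : w ≠ 0 := by
    rintro rfl
    rw [norm_zero] at h
    norm_num at h
  rw [Padic.norm_eq_zpow_neg_valuation hw] at h
  push_cast at h
  have h1 : (1 / 8 : ℝ) = 2 ^ (-3 : ℤ) := by norm_num
  rw [h1, ← zpow_natCast, ← zpow_mul] at h
  have h2 := zpow_right_injective₀ (by norm_num : (0 : ℝ) < 2) (by norm_num) h
  push_cast at h2
  omega

/-- Points at distance at most `1 / 8` are not distinguished from a point at distance at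
least `1`. -/
theorem same_of_far {x a b : ℚ_[2]} (h : 1 ≤ ‖x - b‖) {t : ℤ} (hab : a - b = 8 * (t : ℚ_[2])) :
    ∃ e : ℚ_[2], e ≠ 0 ∧ x - a = (x - b) * e ^ 2 := by
  have hxb : x - b ≠ 0 := by
    intro h0
    rw [h0, norm_zero] at h
    linarith
  have ht : ‖(t : ℚ_[2])‖ ≤ 1 := Padic.norm_int_le_one t
  have hw : ‖-(t : ℚ_[2]) / (x - b)‖ ≤ 1 := by
    rw [norm_div, norm_neg]
    exact (div_le_one (by linarith)).2 (ht.trans h)
  obtain ⟨e, he, h1⟩ := sq_of_eight (x := (x - a) / (x - b)) ⟨_, hw⟩ (by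
    show (x - a) / (x - b) = 1 + 8 * (-(t : ℚ_[2]) / (x - b))
    field_simp
    linear_combination -hab)
  refine ⟨e, he, ?_⟩
  rw [← h1]
  field_simp

theorem half_realised {n m ρ : ℕ} {D : ℕ → ℚ_[2]} (hD : Comp n D) (hm : 2 * m ≤ n + 1 - ρ)
    (hρ : ρ < 2) (hn : n ≤ 2 * m + ρ)
    (IH : ∀ D' : ℕ → ℚ_[2], Comp m D' → Realised m D') :
    ∃ x : ℚ_[2], ∀ a < n, a % 2 = ρ →
      ∃ e : ℚ_[2], e ≠ 0 ∧ (ρ : ℚ_[2]) + 2 * x - a = D a * e ^ 2 := by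
  obtain ⟨x, hx⟩ := IH (fun a => D (ρ + 2 * a) / 2) ⟨fun a ha =>
      div_ne_zero (hD.1 _ (by omega)) two_ne_zero, fun a b hab hb => by
    obtain ⟨X, Y, h⟩ := hD.2 (ρ + 2 * a) (ρ + 2 * b) (by omega) (by omega)
    refine ⟨X, Y, ?_⟩
    push_cast at h
    linear_combination h / 2⟩
  refine ⟨x, fun a ha ha2 => ?_⟩
  obtain ⟨e, he, h⟩ := hx (a / 2) (by omega)
  refine ⟨e, he, ?_⟩
  have h1 : a = ρ + 2 * (a / 2) := by omega
  simp only [← h1] at h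
  have h2 : (a : ℚ_[2]) = ρ + 2 * ((a / 2 : ℕ) : ℚ_[2]) := by
    exact_mod_cast congrArg (fun z : ℕ => (z : ℚ_[2])) h1
  linear_combination 2 * h - h2

theorem complete_step {n : ℕ} (hn : 18 ≤ n) {D : ℕ → ℚ_[2]} (hD : Comp n D)
    (IH : ∀ m, 9 ≤ m → m < n → ∀ D' : ℕ → ℚ_[2], Comp m D' → Realised m D') :
    Realised n D := by
  have key : ∀ ρ < 2, ∃ x : ℚ_[2], ∀ a < n, a % 2 = ρ →
      ∃ e : ℚ_[2], e ≠ 0 ∧ (ρ : ℚ_[2]) + 2 * x - a = D a * e ^ 2 := by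
    intro ρ hρ
    refine half_realised (m := (n + 1 - ρ) / 2) hD (by omega) hρ (by omega) ?_
    exact IH _ (by omega) (by omega)
  choose! x hx using key
  by_cases hcase : ∃ ρ < 2, ‖x ρ‖ ≤ 1
  · obtain ⟨ρ, hρ, h1⟩ := hcase
    refine ⟨(ρ : ℚ_[2]) + 2 * x ρ, fun b hb => ?_⟩
    by_cases hb2 : b % 2 = ρ
    · exact hx ρ hρ b hb hb2
    · exact propagate (x' := ⟨x ρ, h1⟩) (by omega) hD hρ (hx ρ hρ) hb hb2
  push Not at hcase
  -- both halves are far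
  have hfar : ∀ ρ < 2, ∀ a : ℕ, a % 2 = ρ → ‖(ρ : ℚ_[2]) + 2 * x ρ - a‖ = ‖2 * x ρ‖ := by
    intro ρ hρ a ha
    have h1 : (a : ℚ_[2]) = ρ + 2 * ((a / 2 : ℕ) : ℚ_[2]) := by
      have h1 : a = ρ + 2 * (a / 2) := by omega
      exact_mod_cast congrArg (fun z : ℕ => (z : ℚ_[2])) h1
    have h2 : (ρ : ℚ_[2]) + 2 * x ρ - a = 2 * x ρ + -(2 * ((a / 2 : ℕ) : ℚ_[2])) := by
      linear_combination -h1
    rw [h2]
    have h3 := two_le_norm (hcase ρ hρ)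
    have h4 := norm_nat_le (a / 2)
    have h5 : ‖-(2 * ((a / 2 : ℕ) : ℚ_[2]))‖ < ‖2 * x ρ‖ := by
      rw [norm_neg, norm_mul, norm_mul, norm_two]
      linarith
    rw [Padic.add_eq_max_of_ne h5.ne', max_eq_left h5.le]
  have hfar1 : ∀ ρ < 2, 1 ≤ ‖2 * x ρ‖ := by
    intro ρ hρ
    rw [norm_mul, norm_two]
    linarith [two_le_norm (hcase ρ hρ)]
  have hper : ∀ a < n, ∀ b < n, a % 8 = b % 8 → ∃ e : ℚ_[2], e ≠ 0 ∧ D a = D b * e ^ 2 := by
    intro a ha b hb hab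
    have hρ : a % 2 < 2 := Nat.mod_lt _ (by norm_num)
    obtain ⟨e, he, h1⟩ := hx (a % 2) hρ a ha rfl
    obtain ⟨f, hf, h2⟩ := hx (a % 2) hρ b hb (by omega)
    obtain ⟨t, ht⟩ := norm_eight_sub hab
    obtain ⟨g, hg, h3⟩ := same_of_far (x := ((a % 2 : ℕ) : ℚ_[2]) + 2 * x (a % 2))
      (a := a) (b := b) (by
      rw [hfar _ hρ b (by omega)]
      exact hfar1 _ hρ) ht
    rw [h1, h2] at h3
    refine ⟨f * g / e, div_ne_zero (mul_ne_zero hf hg) he, ?_⟩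
    field_simp
    linear_combination h3
  obtain ⟨z, hz⟩ := IH 9 le_rfl (by omega) D ⟨fun a ha => hD.1 a (by omega),
    fun a b hab hb => hD.2 a b hab (by omega)⟩
  rcases le_or_gt ‖z‖ 1 with hz1 | hz1
  · exfalso
    obtain ⟨r, hr, t, ht⟩ := exists_mod_eight ⟨z, hz1⟩
    have hzr : z = r + 8 * t := by
      have := congrArg (fun z : ℤ_[2] => (z : ℚ_[2])) ht
      have h8 : ((8 : ℤ_[2]) : ℚ_[2]) = 8 := map_ofNat (PadicInt.Coe.ringHom (p := 2)) 8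
      push_cast at this
      rw [h8] at this
      exact this
    have ha1 : ((r + 6) % 8 : ℕ) < 8 := Nat.mod_lt _ (by norm_num)
    have ha2 : ((r + 4) % 8 : ℕ) < 8 := Nat.mod_lt _ (by norm_num)
    obtain ⟨t1, ht1⟩ : ∃ t1 : ℤ, (r : ℤ) - ((r + 6) % 8 : ℕ) = 2 + 8 * t1 :=
      ⟨((r : ℤ) - ((r + 6) % 8 : ℕ) - 2) / 8, by omega⟩
    obtain ⟨t2, ht2⟩ : ∃ t2 : ℤ, (r : ℤ) - ((r + 4) % 8 : ℕ) = 4 + 8 * t2 :=
      ⟨((r : ℤ) - ((r + 4) % 8 : ℕ) - 4) / 8, by omega⟩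
    have hodd : ∀ w : ℤ_[2], ‖1 + 2 * (w : ℚ_[2])‖ = 1 := by
      intro w
      have h1 : ‖2 * (w : ℚ_[2])‖ < ‖(1 : ℚ_[2])‖ := by
        rw [norm_mul, norm_two, norm_one]
        have : ‖(w : ℚ_[2])‖ ≤ 1 := w.2
        linarith
      rw [Padic.add_eq_max_of_ne h1.ne', max_eq_left h1.le, norm_one]
    have hn1 : ‖z - (((r + 6) % 8 : ℕ) : ℚ_[2])‖ = 1 / 2 := by
      have h1 : z - (((r + 6) % 8 : ℕ) : ℚ_[2]) =
          2 * (1 + 2 * ((2 * ((t1 : ℤ_[2]) + t) : ℤ_[2]) : ℚ_[2])) := by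
        have h2' : ((2 : ℤ_[2]) : ℚ_[2]) = 2 := map_ofNat (PadicInt.Coe.ringHom (p := 2)) 2
        have h2 : (r : ℚ_[2]) - (((r + 6) % 8 : ℕ) : ℚ_[2]) = 2 + 8 * (t1 : ℚ_[2]) := by
          exact_mod_cast congrArg (fun z : ℤ => (z : ℚ_[2])) ht1
        push_cast at h2 ⊢
        rw [h2', hzr]
        linear_combination h2
      rw [h1, norm_mul, hodd, norm_two, mul_one]
    have hn2 : ‖z - (((r + 4) % 8 : ℕ) : ℚ_[2])‖ = 1 / 4 := by
      have h1 : z - (((r + 4) % 8 : ℕ) : ℚ_[2]) =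
          2 * (2 * (1 + 2 * (((t2 : ℤ_[2]) + t : ℤ_[2]) : ℚ_[2]))) := by
        have h2 : (r : ℚ_[2]) - (((r + 4) % 8 : ℕ) : ℚ_[2]) = 4 + 8 * (t2 : ℚ_[2]) := by
          exact_mod_cast congrArg (fun z : ℤ => (z : ℚ_[2])) ht2
        push_cast at h2 ⊢
        rw [hzr]
        linear_combination h2
      rw [h1, norm_mul, norm_mul, hodd, norm_two]
      norm_num
    set a1 := (r + 6) % 8 with ha1d
    set a2 := (r + 4) % 8 with ha2d
    have hρ : r % 2 < 2 := Nat.mod_lt _ (by norm_num)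
    obtain ⟨e1, he1, h1⟩ := hx (r % 2) hρ a1 (by omega) (by omega)
    obtain ⟨e2, he2, h2⟩ := hx (r % 2) hρ a2 (by omega) (by omega)
    obtain ⟨f1, hf1, h3⟩ := hz a1 (by omega)
    obtain ⟨f2, hf2, h4⟩ := hz a2 (by omega)
    apply norm_sq_ne_eighth (2 * x (r % 2) * (f1 * f2 / (e1 * e2)))
    have h5 : (z - a1) * (z - a2) = ((((r % 2 : ℕ) : ℚ_[2]) + 2 * x (r % 2) - a1) *
        (((r % 2 : ℕ) : ℚ_[2]) + 2 * x (r % 2) - a2)) * (f1 * f2 / (e1 * e2)) ^ 2 := by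
      rw [h1, h2, h3, h4]
      field_simp
    have h6 := congrArg norm h5
    rw [norm_mul, norm_mul, norm_mul, hn1, hn2, hfar _ hρ _ (by omega), hfar _ hρ _ (by omega),
      norm_pow] at h6
    rw [norm_mul]
    linear_combination -h6
  · refine ⟨z, fun b hb => ?_⟩
    have hb8 : b % 8 < 9 := by omega
    obtain ⟨e, he, h1⟩ := hz (b % 8) hb8
    obtain ⟨f, hf, h2⟩ := hper (b % 8) (by omega) b hb (by omega)
    obtain ⟨t, ht⟩ := norm_eight_sub (a := b) (b := b % 8) (by omega)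
    obtain ⟨g, hg, h3⟩ := same_of_far (x := z) (a := b) (b := ((b % 8 : ℕ) : ℚ_[2])) (by
      have h4 := norm_nat_le (b % 8)
      have h5 : ‖-((b % 8 : ℕ) : ℚ_[2])‖ < ‖z‖ := by
        rw [norm_neg]
        linarith
      rw [sub_eq_add_neg, Padic.add_eq_max_of_ne h5.ne', max_eq_left h5.le]
      exact hz1.le) ht
    refine ⟨e * f * g, mul_ne_zero (mul_ne_zero he hf) hg, ?_⟩
    rw [h3, h1, h2]
    ring

/-- **Completeness.** Compatible systems of twists on `0, …, n - 1`, `n ≥ 9`, come from a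
`2`-adic number. -/
theorem complete (n : ℕ) : 9 ≤ n → ∀ D : ℕ → ℚ_[2], Comp n D → Realised n D := by
  induction n using Nat.strong_induction_on with
  | _ n IH =>
    intro h9 D hD
    by_cases h17 : n ≤ 17
    · exact complete_base h9 h17 hD
    · exact complete_step (by omega) hD fun m hm hmn => IH m hmn hm

end Pool.Agent.Lib.MP_c385f6_ag.Dyadic
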